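import Pool.Agent.N703.SCH.Core

/-!
# Modular Schur numbers are at least three times the preceding Schur number, minus one
(MP_43d3f2_co)
-/

set_option autoImplicit false

namespace Pool.Agent.Results.MP_43d3f2_co.ThreeTimes

/-- `3 s(n) ≤ t(n + 1) + 1`, where `s(n)` is the least `k` such that every `n`-colouring has a
monochromatic solution of `x + y = z` in `1, …, k`, and `t(n)` is the least `k` such that every
`n`-colouring has a monochromatic solution of `x + y ≡ z` modulo `k + 1` in `1, …, k`. -/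
theorem result : ∀ n : ℕ,
    3 * sInf {k : ℕ | ∀ c : ℕ → Fin n, ∃ x y z : ℕ,
        1 ≤ x ∧ x ≤ k ∧ 1 ≤ y ∧ y ≤ k ∧ 1 ≤ z ∧ z ≤ k ∧
        c x = c y ∧ c y = c z ∧ x + y = z} ≤
      sInf {k : ℕ | ∀ c : ℕ → Fin (n + 1), ∃ x y z : ℕ,
        1 ≤ x ∧ x ≤ k ∧ 1 ≤ y ∧ y ≤ k ∧ 1 ≤ z ∧ z ≤ k ∧
        c x = c y ∧ c y = c z ∧ x + y ≡ z [MOD k + 1]} + 1 :=
  fun n => Pool.Agent.N703.SCH.main n

end Pool.Agent.Results.MP_43d3f2_co.ThreeTimes
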